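import Pool.Agent.Helper59.EV.Fin
import Pool.Agent.Helper31.EC.Chg
import Pool.Agent.Helper31.EC.RobS

/-!
# Informations with few values on a typical event
-/

set_option autoImplicit false

namespace Pool.Agent.Helper35.T4

open Filter Topology Pool.Agent.Helper69.RK Pool.Agent.Helper31.EC Pool.Agent.Helper31.EC.Sp

noncomputable section

variable {S : Sp}

/-- an information which has subexponentially many values on the classes of a typical event has rate zero -/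
theorem rt_zero_of_few (X : S.Inf) (B : ∀ k, Setoid (S.F k).Ω) (E : ∀ k, (S.F k).Ω → Prop) (hE : Typ E)
    (N : ℕ → ℝ) (hN : S.Sub N)
    (hh : ∀ᶠ k in UF, ∀ ω, (S.F k).μ ω ≠ 0 → E k ω → ∀ I : Finset (Quotient (X.1 k)),
      (∀ q ∈ I, ∃ ω', (S.F k).μ ω' ≠ 0 ∧ E k ω' ∧ B k ω' ω ∧ (S.F k).Z ω' ω ∧ Quotient.mk (X.1 k) ω' = q) →
        (I.card : ℝ) ≤ N k) : Tendsto (S.rt X.1 B) UF (𝓝 0) := by
  have hp : ∀ᶠ k in UF, (S.F k).pb (E k) ≠ 0 := by
    have h1 := (Typ_iff E).mp hE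
    filter_upwards [h1.eventually (lt_mem_nhds zero_lt_one)] with k hk
    exact hk.ne'
  have h2 : ∀ᶠ k in UF, (S.rest E).rt X.1 B k ≤ Real.logb 2 (N k + 2) / (S.F k).n := by
    filter_upwards [hh, hp, hN.1] with k hk hpk hN0
    have hn := (S.F k).pos
    have h3 := Pool.Agent.Helper59.EV.CH_cardv ((S.F k).rest (E k)).μ (Quotient.mk (X.1 k))
      (Quotient.mk (B k ⊓ (S.F k).Z)) (fun _ => N k + 2) (fun ω => ((S.F k).rest (E k)).nn ω) (by
      intro ω hω T hT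
      obtain ⟨s1, s2⟩ := (S.F k).rest_supp (E k) ω hω
      refine (hk ω s1 (s2 hpk) T fun q hq => ?_).trans (by linarith)
      obtain ⟨ω', b1, b2, b3⟩ := hT q hq
      obtain ⟨t1, t2⟩ := (S.F k).rest_supp (E k) ω' b1
      have b4 := Quotient.exact b2
      exact ⟨ω', t1, t2 hpk, b4.1, b4.2, b3⟩)
    rw [← Finset.sum_mul] at h3
    have h4 : ∑ ω, ((S.F k).rest (E k)).μ ω = 1 := ((S.F k).rest (E k)).ms
    rw [h4, one_mul] at h3
    exact div_le_div_of_nonneg_right h3 hn.le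
  have h5 : Tendsto ((S.rest E).rt X.1 B) UF (𝓝 0) :=
    tendsto_of_tendsto_of_tendsto_of_le_of_le' tendsto_const_nhds hN.2
      (Eventually.of_forall fun k => rt_nonneg _ _ k) h2
  have h6 := ul_rt_typ E hE X B
  rw [ul_eq h5] at h6
  rw [h6]
  exact ul_tendsto (UB_rt X B)

/-- the same in the space over a partition -/
theorem chgL_le_of_few (X A : S.Inf) (Z : ∀ k, Setoid (S.F k).Ω) (e : ℝ) (he : 0 < e) (E : ∀ k, (S.F k).Ω → Prop)
    (hE : Typ E) (N : ℕ → ℝ) (hN : S.Sub N)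
    (hh : ∀ᶠ k in UF, ∀ ω, (S.F k).μ ω ≠ 0 → E k ω → ∀ I : Finset (Quotient (X.1 k)),
      (∀ q ∈ I, ∃ ω', (S.F k).μ ω' ≠ 0 ∧ E k ω' ∧ A.1 k ω' ω ∧ Z k ω' ω ∧ (S.F k).Z ω' ω ∧
        Quotient.mk (X.1 k) ω' = q) → (I.card : ℝ) ≤ N k) : chgL Z e he (cl X) ≤ chgL Z e he (cl A) := by
  rw [chgL_cl, chgL_cl, cl_le, Inf.le_def]
  have h1 := (rt_zero_of_few X (fun k => A.1 k ⊓ Z k) E hE N hN (by
    filter_upwards [hh] with k hk ω a b I hI
    refine hk ω a b I fun q hq => ?_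
    obtain ⟨ω', b1, b2, b3, b4, b5⟩ := hI q hq
    exact ⟨ω', b1, b2, b3.1, b3.2, b4, b5⟩)).div_const e
  rw [zero_div] at h1
  exact h1.congr fun k => (chg_rt Z e he X.1 A.1 k).symm

end

end Pool.Agent.Helper35.T4
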