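import Pool.Agent.Helper35.T4.Strip
import Pool.Agent.Helper35.T4.Few
import Pool.Agent.Helper11.TZ.Def

/-!
# T4: one coordinate from the other coordinates and the top coordinate
-/

set_option autoImplicit false

namespace Pool.Agent.Helper35.T4

open Filter Topology MvPolynomial Pool.Agent.Helper69.RK Pool.Agent.Helper31.EC Pool.Agent.Helper31.EC.Sp
open Pool.Agent.Helper89.LX Pool.Agent.Helper3.LF Pool.Agent.Helper3.PR Pool.Agent.Helper48.NS
open Pool.Agent.Helper11.TZ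

noncomputable section

variable {S : Sp}

/-- a finite join of informations with a representative -/
theorem exists_inf_sup {ι : Type} (s : Finset ι) (B : ι → S.Inf) : ∃ C : S.Inf, cl C = s.sup (fun i => cl (B i)) ∧
    ∀ k ω ω', C.1 k ω ω' → ∀ i ∈ s, (B i).1 k ω ω' := by
  classical
  induction s using Finset.induction_on with
  | empty => exact ⟨Inf.bot, by rw [cl_bot, Finset.sup_empty], fun _ _ _ _ i hi => by simp at hi⟩
  | insert a s ha ih =>
    obtain ⟨C, hC, hC'⟩ := ih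
    refine ⟨Inf.sup (B a) C, ?_, ?_⟩
    · rw [cl_sup, hC, Finset.sup_insert]
    · intro k ω ω' g i hi
      rw [Finset.mem_insert] at hi
      rcases hi with rfl | hi
      · exact g.1
      · exact hC' k ω ω' g.2 i hi

/-- the information of the digits of a tame function -/
def dI (f : TR S) (r : ℝ) : S.Inf := (VV.bdd (TR.vec (fun _ : Fin 1 => f)) r).toInf

theorem cl_dI (f : TR S) (r : ℝ) : cl (dI f r) = TR.dg f r := (io_eq _).symm

theorem dI_close (f : TR S) (r : ℝ) (k : ℕ) (ω ω' : (S.F k).Ω) (h : (dI f r).1 k ω ω') :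
    |TR.ev f k ω - TR.ev f k ω'| ≤ S.dl r k :=
  VV.cellv_close (TR.vec (fun _ : Fin 1 => f)) r k ω ω' h 0

/-- the number of cells -/
theorem dI_card (f : TR S) (r : ℝ) (k : ℕ) (I : Finset (Quotient ((dI f r).1 k))) (P : (S.F k).Ω → Prop) (N : ℕ)
    (hI : ∀ q ∈ I, ∃ ω', P ω' ∧ Quotient.mk ((dI f r).1 k) ω' = q)
    (h : ∀ J : Finset ℤ, (∀ n ∈ J, ∃ ω', P ω' ∧ ⌊TR.ev f k ω' / S.dl r k⌋ = n) → J.card ≤ N) : I.card ≤ N := by
  classical
  set φ : Quotient ((dI f r).1 k) → ℤ := Quotient.lift (fun ω => ⌊TR.ev f k ω / S.dl r k⌋) (by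
    intro ω ω' (g : (dI f r).1 k ω ω')
    exact congrFun (g : (TR.vec (fun _ : Fin 1 => f)).cellv r k ω = (TR.vec (fun _ : Fin 1 => f)).cellv r k ω') 0) with hφ
  have hinj : Function.Injective φ := by
    intro q1 q2
    induction q1 using Quotient.ind with | _ ω1
    induction q2 using Quotient.ind with | _ ω2
    intro g
    apply Quotient.sound
    show (TR.vec (fun _ : Fin 1 => f)).cellv r k ω1 = (TR.vec (fun _ : Fin 1 => f)).cellv r k ω2
    funext i
    exact g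
  rw [← Finset.card_image_of_injective I hinj]
  apply h
  intro n hn
  obtain ⟨q, hq, rfl⟩ := Finset.mem_image.mp hn
  obtain ⟨ω', h1, h2⟩ := hI q hq
  exact ⟨ω', h1, by rw [← h2]; rfl⟩

variable {m D : ℕ}

/-- **STATEMENT T4**: the coordinate `P i0` from the other coordinates and the top coordinate, over the base -/
theorem st_T4 : ST_T4 m D := by
  intro U s Z c η i0 q hq hη0 hη1 K hK hKt b hb hb1 e he
  -- constants
  obtain ⟨K1, hK1, hE1⟩ := hq.bd (fun _ => 1) (U.Sub_const zero_le_one)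
  obtain ⟨K2, hK2, hE2⟩ := hq.der
  set L : ℕ → ℝ := fun k => K1 k + K2 k + K k + 1 with hL
  have hLs : U.Sub L := ((hK1.add hK2).add hK).add (U.Sub_const zero_le_one)
  have hL1 : ∀ᶠ k in UF, 1 ≤ L k := by
    filter_upwards [hK1.1, hK2.1, hK.1] with k a1 a2 a3
    show 1 ≤ K1 k + K2 k + K k + 1
    linarith
  set Mr : ℕ → ℝ := fun k => 4 * L k * (((m + 1 : ℕ) : ℝ) * (2 * Cu D * L k) + 1) with hMr
  have hCu := Cu_one D
  have hMrs : U.Sub Mr := by
    have h1 : U.Sub (fun k => 4 * L k) := (U.Sub_const (show (0 : ℝ) ≤ 4 by norm_num)).mul hLs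
    have h2 : U.Sub (fun k => 2 * Cu D * L k) := (U.Sub_const (show (0 : ℝ) ≤ 2 * Cu D by positivity)).mul hLs
    have h3 : U.Sub (fun k => ((m + 1 : ℕ) : ℝ) * (2 * Cu D * L k)) := (U.Sub_const (Nat.cast_nonneg _)).mul h2
    exact h1.mul (h3.add (U.Sub_const zero_le_one))
  have hNs : U.Sub (fun k => (((2 * D + 1) * (⌈Mr k⌉₊ + 2) : ℕ) : ℝ)) := by
    have h1 : U.Sub (fun k => ((2 * D + 1 : ℕ) : ℝ) * (Mr k + 3)) :=
      (U.Sub_const (Nat.cast_nonneg _)).mul (hMrs.add (U.Sub_const (by norm_num)))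
    refine h1.mono (Eventually.of_forall fun k => Nat.cast_nonneg _) ?_
    filter_upwards [hMrs.1] with k hk
    rw [Nat.cast_mul]
    apply mul_le_mul_of_nonneg_left _ (Nat.cast_nonneg _)
    push_cast
    linarith [(Nat.ceil_lt_add_one hk).le]
  -- the representative of the right hand side
  obtain ⟨C, hC, hC'⟩ := exists_inf_sup ((Finset.univ : Finset (Fin m)).filter (fun j => j ≠ i0))
    (fun j => dI (TR.cor s.P j) 1)
  set A : U.Inf := Inf.sup (dI (zt s q K hK) b) (Inf.sup ((VV.bdd s.t 1).toInf) C) with hA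
  have hclA : cl A = TR.dg (zt s q K hK) b ⊔ oth s i0 := by
    rw [hA, cl_sup, cl_sup, cl_dI, hC]
    unfold oth
    have e1 : cl (VV.bdd s.t 1).toInf = s.T := (io_eq _).symm
    rw [e1]
    congr 2
    apply Finset.sup_congr rfl
    intro j _
    exact cl_dI _ _
  rw [← hclA, ← cl_dI]
  refine chgL_le_of_few _ A Z e he _ ((hE1.and hE2).and hKt) _ hNs ?_
  have hsm : ∀ᶠ k in UF, ((m + 1 : ℕ) : ℝ) * (16 * Cu D ^ 2 * L k ^ 2) ≤ 2 ^ ((1 - η) * (U.F k).n) := by
    have h1 : U.Sub (fun k => ((m + 1 : ℕ) : ℝ) * (16 * Cu D ^ 2 * (L k * L k))) :=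
      (U.Sub_const (Nat.cast_nonneg _)).mul ((U.Sub_const (show (0 : ℝ) ≤ 16 * Cu D ^ 2 by positivity)).mul (hLs.mul hLs))
    filter_upwards [h1.eventually_le (show 0 < 1 - η by linarith)] with k hk
    rw [sq]
    linarith
  filter_upwards [hq.meas, hL1, hsm, hK1.1, hK2.1, hK.1, hMrs.1] with k hm hLk hsk k1 k2 k3 hM0 ω hω hE I hI
  have hn := (U.F k).pos
  have hd1 := U.dl_pos 1 k
  have hdη := U.dl_pos η k
  have hdb := U.dl_pos b k
  have hdηb := U.dl_pos (η + b) k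
  have hIc : I.card ≤ (2 * D + 1) * (⌈Mr k⌉₊ + 2) := by
    refine dI_card (TR.cor s.P i0) (η + b) k I (fun ω' => (U.F k).μ ω' ≠ 0 ∧ (((∀ r, |r - s.t.v k ω' 0| ≤ 1 * U.dl c k →
      ∀ y : Fin (m + 1) → ℝ, (∀ i, |y i - pl (s.a.v k ω') (s.x.v k ω') r i| ≤ 1 * U.dl η k) →
        |eval y (pol (q k ω'))| ≤ K1 k) ∧ 1 ≤ K2 k * (U.dl η k * |eval (ptf s k ω') (dir (Pi.single i0 1) (pol (q k ω')))|)) ∧
        |eval (ptf s k ω') (pol (q k ω'))| ≤ K k) ∧ A.1 k ω' ω ∧ Z k ω' ω ∧ (U.F k).Z ω' ω) _ ?_ ?_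
    · intro x hx
      obtain ⟨ω', b1, b2, b3, b4, b5, b6⟩ := hI x hx
      exact ⟨ω', ⟨b1, b2, b3, b4, b5⟩, b6⟩
    intro J hJ
    refine strip_card (D := D) (pol (q k ω)) (pol_deg _) i0.succ (ptf s k ω) (eval (ptf s k ω) (pol (q k ω)))
      (U.dl η k) (U.dl 1 k) (U.dl b k) (L k) (U.dl (η + b) k) ⌈Mr k⌉₊ hdη hLk hd1.le hdηb ?_ ?_ J ?_
    · -- smallness
      have e1 : U.dl η k = 2 ^ ((1 - η) * (U.F k).n) * U.dl 1 k := by
        unfold Sp.dl
        rw [← Real.rpow_add (by norm_num : (0 : ℝ) < 2)]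
        congr 1; ring
      rw [e1]
      calc ((m + 1 : ℕ) : ℝ) * (16 * Cu D ^ 2 * L k ^ 2 * U.dl 1 k) =
          (((m + 1 : ℕ) : ℝ) * (16 * Cu D ^ 2 * L k ^ 2)) * U.dl 1 k := by ring
        _ ≤ _ := mul_le_mul_of_nonneg_right hsk hd1.le
    · -- the number of cells
      have e1 : U.dl (η + b) k = U.dl η k * U.dl b k := U.dl_add _ _ _
      have e2 : U.dl 1 k ≤ U.dl η k * U.dl b k := by
        rw [← e1]
        exact U.dl_anti hb1 k
      have e3 : U.dl 1 k / U.dl η k ≤ U.dl b k := by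
        rw [div_le_iff₀ hdη]
        linarith
      have e4 : 1 / (2 * L k * U.dl η k) * (⌈Mr k⌉₊ * U.dl (η + b) k) = ⌈Mr k⌉₊ / (2 * L k) * U.dl b k := by
        rw [e1]
        field_simp
      rw [e4]
      have e5 : ((m + 1 : ℕ) : ℝ) * (U.dl 1 k * (2 * Cu D * L k / U.dl η k)) =
          ((m + 1 : ℕ) : ℝ) * (2 * Cu D * L k) * (U.dl 1 k / U.dl η k) := by ring
      rw [e5]
      have e6 : ((m + 1 : ℕ) : ℝ) * (2 * Cu D * L k) * (U.dl 1 k / U.dl η k) ≤
          ((m + 1 : ℕ) : ℝ) * (2 * Cu D * L k) * U.dl b k := mul_le_mul_of_nonneg_left e3 (by positivity)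
      have e7 : 2 * (((m + 1 : ℕ) : ℝ) * (2 * Cu D * L k) + 1) ≤ ⌈Mr k⌉₊ / (2 * L k) := by
        rw [le_div_iff₀ (by positivity)]
        refine le_trans (le_of_eq ?_) (Nat.le_ceil (Mr k))
        show _ = 4 * L k * (((m + 1 : ℕ) : ℝ) * (2 * Cu D * L k) + 1)
        ring
      have e8 := mul_le_mul_of_nonneg_right e7 hdb.le
      nlinarith
    · intro n hn'
      obtain ⟨ω', ⟨b1, ⟨⟨b2, b3⟩, b4⟩, b5, b6, b7⟩, b8⟩ := hJ n hn'
      have hqq : q k ω' = q k ω := hm ω' ω b1 hω b6 b7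
      rw [hqq] at b2 b3 b4
      refine ⟨ptf s k ω', ?_, ?_, ?_, ?_, ?_⟩
      · exact b8
      · intro j hj
        rcases Fin.eq_zero_or_eq_succ j with h0 | ⟨j', h0⟩
        · rw [h0]
          exact VV.cellv_close s.t 1 k ω' ω b5.2.1 0
        · rw [h0]
          have hj' : j' ≠ i0 := by
            intro h
            exact hj (by rw [h0, h])
          exact dI_close (TR.cor s.P j') 1 k ω' ω
            (hC' k ω' ω b5.2.2 j' (Finset.mem_filter.mpr ⟨Finset.mem_univ _, hj'⟩))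
      · intro y hy
        refine (b2 (s.t.v k ω' 0) (by rw [sub_self, abs_zero, one_mul]; exact (U.dl_pos c k).le) y (fun i => by
          rw [one_mul]; exact hy i)).trans ?_
        show K1 k ≤ K1 k + K2 k + K k + 1
        linarith
      · have h1 := dI_close _ _ _ _ _ b5.1
        rw [Pool.Agent.Helper11.TZ.zt, cut_ev (by rw [hqq]; exact b4), cut_ev hE.2, hqq] at h1
        exact h1
      · have h1 : dir (Pi.single i0 1) (pol (q k ω)) = pderiv i0.succ (pol (q k ω)) := by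
          unfold dir
          rw [Finset.sum_eq_single i0]
          · rw [Pi.single_eq_same, C_1, one_mul]
          · intro j _ hj
            rw [Pi.single_eq_of_ne hj, C_0, zero_mul]
          · intro h
            exact absurd (Finset.mem_univ i0) h
        rw [h1] at b3
        refine b3.trans (mul_le_mul_of_nonneg_right ?_ (by positivity))
        show K2 k ≤ K1 k + K2 k + K k + 1
        linarith
  exact_mod_cast hIc

end

end Pool.Agent.Helper35.T4
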