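import Pool.Agent.Helper35.T4.Main
import Pool.Agent.Helper60.CS.Zo

/-!
# T4, fine form: the other coordinates are only needed to the same level
-/

set_option autoImplicit false

namespace Pool.Agent.Helper35.T4

open Filter Topology MvPolynomial Pool.Agent.Helper69.RK Pool.Agent.Helper31.EC Pool.Agent.Helper31.EC.Sp
open Pool.Agent.Helper89.LX Pool.Agent.Helper3.LF Pool.Agent.Helper3.PR Pool.Agent.Helper48.NS
open Pool.Agent.Helper11.TZ

noncomputable section

variable {S : Sp}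

variable {m D : ℕ}

/-- the height and the first digits of all coordinates of the point except `P i0` -/
def othg {U : Sp} (s : Sys U m) (i0 : Fin m) (g : ℝ) : U.L :=
  s.T ⊔ ((Finset.univ : Finset (Fin m)).filter (fun j => j ≠ i0)).sup fun j => TR.dg (TR.cor s.P j) g

theorem othg_mono {U : Sp} (s : Sys U m) (i0 : Fin m) {g g' : ℝ} (h : g ≤ g') : othg s i0 g ≤ othg s i0 g' :=
  sup_le_sup_left (Finset.sup_mono_fun fun _ _ => TR.dg_mono _ h) _

/-- **T4 with the digits of level `g` of the other coordinates**, `η < g ≤ 1`, `η + b ≤ g` -/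
theorem t4_core (U : Sp) (s : Sys U m) (Z : ∀ k, Setoid (U.F k).Ω) (c η : ℝ) (i0 : Fin m)
    (q : ∀ k, (U.F k).Ω → Mon (m + 1) D → ℝ) (hq : Top s Z D c η (fun _ => Pi.single i0 1) q)
    (K : ℕ → ℝ) (hK : U.Sub K) (hKt : Sp.Typ (S := U) (fun k ω => |eval (ptf s k ω) (pol (q k ω))| ≤ K k))
    (b g : ℝ) (hg : η < g) (hg1 : g ≤ 1) (hbg : η + b ≤ g) (e : ℝ) (he : 0 < e) :
    Sp.chgL Z e he (TR.dg (TR.cor s.P i0) (η + b)) ≤ Sp.chgL Z e he (TR.dg (zt s q K hK) b ⊔ othg s i0 g) := by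
  -- constants
  obtain ⟨K1, hK1, hE1⟩ := hq.bd (fun _ => 1) (U.Sub_const zero_le_one)
  obtain ⟨K2, hK2, hE2⟩ := hq.der
  set L : ℕ → ℝ := fun k => K1 k + K2 k + K k + 1 with hL
  have hLs : U.Sub L := ((hK1.add hK2).add hK).add (U.Sub_const zero_le_one)
  have hL1 : ∀ᶠ k in UF, 1 ≤ L k := by
    filter_upwards [hK1.1, hK2.1, hK.1] with k a1 a2 a3
    show 1 ≤ K1 k + K2 k + K k + 1
    linarith
  set Mr : ℕ → ℝ := fun k => 4 * L k * (((m + 1 : ℕ) : ℝ) * (2 * Cu D * L k) + 1) with hMr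
  have hCu := Cu_one D
  have hMrs : U.Sub Mr := by
    have h1 : U.Sub (fun k => 4 * L k) := (U.Sub_const (show (0 : ℝ) ≤ 4 by norm_num)).mul hLs
    have h2 : U.Sub (fun k => 2 * Cu D * L k) := (U.Sub_const (show (0 : ℝ) ≤ 2 * Cu D by positivity)).mul hLs
    have h3 : U.Sub (fun k => ((m + 1 : ℕ) : ℝ) * (2 * Cu D * L k)) := (U.Sub_const (Nat.cast_nonneg _)).mul h2
    exact h1.mul (h3.add (U.Sub_const zero_le_one))
  have hNs : U.Sub (fun k => (((2 * D + 1) * (⌈Mr k⌉₊ + 2) : ℕ) : ℝ)) := by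
    have h1 : U.Sub (fun k => ((2 * D + 1 : ℕ) : ℝ) * (Mr k + 3)) :=
      (U.Sub_const (Nat.cast_nonneg _)).mul (hMrs.add (U.Sub_const (by norm_num)))
    refine h1.mono (Eventually.of_forall fun k => Nat.cast_nonneg _) ?_
    filter_upwards [hMrs.1] with k hk
    rw [Nat.cast_mul]
    apply mul_le_mul_of_nonneg_left _ (Nat.cast_nonneg _)
    push_cast
    linarith [(Nat.ceil_lt_add_one hk).le]
  -- the representative of the right hand side
  obtain ⟨C, hC, hC'⟩ := exists_inf_sup ((Finset.univ : Finset (Fin m)).filter (fun j => j ≠ i0))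
    (fun j => dI (TR.cor s.P j) g)
  set A : U.Inf := Inf.sup (dI (zt s q K hK) b) (Inf.sup ((VV.bdd s.t 1).toInf) C) with hA
  have hclA : cl A = TR.dg (zt s q K hK) b ⊔ othg s i0 g := by
    rw [hA, cl_sup, cl_sup, cl_dI, hC]
    unfold othg
    have e1 : cl (VV.bdd s.t 1).toInf = s.T := (io_eq _).symm
    rw [e1]
    congr 2
    apply Finset.sup_congr rfl
    intro j _
    exact cl_dI _ _
  rw [← hclA, ← cl_dI]
  refine chgL_le_of_few _ A Z e he _ ((hE1.and hE2).and hKt) _ hNs ?_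
  have hsm : ∀ᶠ k in UF, ((m + 1 : ℕ) : ℝ) * (16 * Cu D ^ 2 * L k ^ 2) ≤ 2 ^ ((g - η) * (U.F k).n) := by
    have h1 : U.Sub (fun k => ((m + 1 : ℕ) : ℝ) * (16 * Cu D ^ 2 * (L k * L k))) :=
      (U.Sub_const (Nat.cast_nonneg _)).mul ((U.Sub_const (show (0 : ℝ) ≤ 16 * Cu D ^ 2 by positivity)).mul (hLs.mul hLs))
    filter_upwards [h1.eventually_le (show 0 < g - η by linarith)] with k hk
    rw [sq]
    linarith
  filter_upwards [hq.meas, hL1, hsm, hK1.1, hK2.1, hK.1, hMrs.1] with k hm hLk hsk k1 k2 k3 hM0 ω hω hE I hI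
  have hn := (U.F k).pos
  have hd1 := U.dl_pos g k
  have hdη := U.dl_pos η k
  have hdb := U.dl_pos b k
  have hdηb := U.dl_pos (η + b) k
  have hIc : I.card ≤ (2 * D + 1) * (⌈Mr k⌉₊ + 2) := by
    refine dI_card (TR.cor s.P i0) (η + b) k I (fun ω' => (U.F k).μ ω' ≠ 0 ∧ (((∀ r, |r - s.t.v k ω' 0| ≤ 1 * U.dl c k →
      ∀ y : Fin (m + 1) → ℝ, (∀ i, |y i - pl (s.a.v k ω') (s.x.v k ω') r i| ≤ 1 * U.dl η k) →
        |eval y (pol (q k ω'))| ≤ K1 k) ∧ 1 ≤ K2 k * (U.dl η k * |eval (ptf s k ω') (dir (Pi.single i0 1) (pol (q k ω')))|)) ∧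
        |eval (ptf s k ω') (pol (q k ω'))| ≤ K k) ∧ A.1 k ω' ω ∧ Z k ω' ω ∧ (U.F k).Z ω' ω) _ ?_ ?_
    · intro x hx
      obtain ⟨ω', b1, b2, b3, b4, b5, b6⟩ := hI x hx
      exact ⟨ω', ⟨b1, b2, b3, b4, b5⟩, b6⟩
    intro J hJ
    refine strip_card (D := D) (pol (q k ω)) (pol_deg _) i0.succ (ptf s k ω) (eval (ptf s k ω) (pol (q k ω)))
      (U.dl η k) (U.dl g k) (U.dl b k) (L k) (U.dl (η + b) k) ⌈Mr k⌉₊ hdη hLk hd1.le hdηb ?_ ?_ J ?_
    · -- smallness
      have e1 : U.dl η k = 2 ^ ((g - η) * (U.F k).n) * U.dl g k := by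
        unfold Sp.dl
        rw [← Real.rpow_add (by norm_num : (0 : ℝ) < 2)]
        congr 1; ring
      rw [e1]
      calc ((m + 1 : ℕ) : ℝ) * (16 * Cu D ^ 2 * L k ^ 2 * U.dl g k) =
          (((m + 1 : ℕ) : ℝ) * (16 * Cu D ^ 2 * L k ^ 2)) * U.dl g k := by ring
        _ ≤ _ := mul_le_mul_of_nonneg_right hsk hd1.le
    · -- the number of cells
      have e1 : U.dl (η + b) k = U.dl η k * U.dl b k := U.dl_add _ _ _
      have e2 : U.dl g k ≤ U.dl η k * U.dl b k := by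
        rw [← e1]
        exact U.dl_anti hbg k
      have e3 : U.dl g k / U.dl η k ≤ U.dl b k := by
        rw [div_le_iff₀ hdη]
        linarith
      have e4 : 1 / (2 * L k * U.dl η k) * (⌈Mr k⌉₊ * U.dl (η + b) k) = ⌈Mr k⌉₊ / (2 * L k) * U.dl b k := by
        rw [e1]
        field_simp
      rw [e4]
      have e5 : ((m + 1 : ℕ) : ℝ) * (U.dl g k * (2 * Cu D * L k / U.dl η k)) =
          ((m + 1 : ℕ) : ℝ) * (2 * Cu D * L k) * (U.dl g k / U.dl η k) := by ring
      rw [e5]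
      have e6 : ((m + 1 : ℕ) : ℝ) * (2 * Cu D * L k) * (U.dl g k / U.dl η k) ≤
          ((m + 1 : ℕ) : ℝ) * (2 * Cu D * L k) * U.dl b k := mul_le_mul_of_nonneg_left e3 (by positivity)
      have e7 : 2 * (((m + 1 : ℕ) : ℝ) * (2 * Cu D * L k) + 1) ≤ ⌈Mr k⌉₊ / (2 * L k) := by
        rw [le_div_iff₀ (by positivity)]
        refine le_trans (le_of_eq ?_) (Nat.le_ceil (Mr k))
        show _ = 4 * L k * (((m + 1 : ℕ) : ℝ) * (2 * Cu D * L k) + 1)
        ring
      have e8 := mul_le_mul_of_nonneg_right e7 hdb.le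
      nlinarith
    · intro n hn'
      obtain ⟨ω', ⟨b1, ⟨⟨b2, b3⟩, b4⟩, b5, b6, b7⟩, b8⟩ := hJ n hn'
      have hqq : q k ω' = q k ω := hm ω' ω b1 hω b6 b7
      rw [hqq] at b2 b3 b4
      refine ⟨ptf s k ω', ?_, ?_, ?_, ?_, ?_⟩
      · exact b8
      · intro j hj
        rcases Fin.eq_zero_or_eq_succ j with h0 | ⟨j', h0⟩
        · rw [h0]
          exact (VV.cellv_close s.t 1 k ω' ω b5.2.1 0).trans (U.dl_anti hg1 k)
        · rw [h0]
          have hj' : j' ≠ i0 := by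
            intro h
            exact hj (by rw [h0, h])
          exact dI_close (TR.cor s.P j') g k ω' ω
            (hC' k ω' ω b5.2.2 j' (Finset.mem_filter.mpr ⟨Finset.mem_univ _, hj'⟩))
      · intro y hy
        refine (b2 (s.t.v k ω' 0) (by rw [sub_self, abs_zero, one_mul]; exact (U.dl_pos c k).le) y (fun i => by
          rw [one_mul]; exact hy i)).trans ?_
        show K1 k ≤ K1 k + K2 k + K k + 1
        linarith
      · have h1 := dI_close _ _ _ _ _ b5.1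
        rw [Pool.Agent.Helper11.TZ.zt, cut_ev (by rw [hqq]; exact b4), cut_ev hE.2, hqq] at h1
        exact h1
      · have h1 : dir (Pi.single i0 1) (pol (q k ω)) = pderiv i0.succ (pol (q k ω)) := by
          unfold dir
          rw [Finset.sum_eq_single i0]
          · rw [Pi.single_eq_same, C_1, one_mul]
          · intro j _ hj
            rw [Pi.single_eq_of_ne hj, C_0, zero_mul]
          · intro h
            exact absurd (Finset.mem_univ i0) h
        rw [h1] at b3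
        refine b3.trans (mul_le_mul_of_nonneg_right ?_ (by positivity))
        show K2 k ≤ K1 k + K2 k + K k + 1
        linarith
  exact_mod_cast hIc

theorem h_chgL_sup {U : Sp} {ι : Type} (Z : ∀ k, Setoid (U.F k).Ω) (e : ℝ) (he : 0 < e) (F : Finset ι) (f : ι → U.L)
    (A : (U.chg Z e he).L) : h (Sp.chgL Z e he (F.sup f)) A ≤ ∑ j ∈ F, h (Sp.chgL Z e he (f j)) A := by
  classical
  induction F using Finset.induction_on with
  | empty =>
    rw [Finset.sup_empty, Sp.chgL_bot, Finset.sum_empty]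
    exact h_le_zero_iff.mpr bot_le
  | insert a F ha ih =>
    rw [Finset.sup_insert, Sp.chgL_sup, Finset.sum_insert ha]
    exact (h_sup_le _ _ _).trans (by linarith)

theorem h_chgL_dg {U : Sp} (Z : ∀ k, Setoid (U.F k).Ω) (e : ℝ) (he : 0 < e) (f : TR U) {r δ : ℝ} (hδ : 0 ≤ δ)
    (A : (U.chg Z e he).L) (hA : Sp.chgL Z e he (TR.dg f r) ≤ A) :
    h (Sp.chgL Z e he (TR.dg f (r + δ))) A ≤ δ / e := by
  have e1 : ∀ u, Sp.chgL Z e he (TR.dg f u) = TR.dg (Pool.Agent.Helper60.CS.trc Z e he f) (u / e) := fun u => by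
    rw [Pool.Agent.Helper60.CS.trc_dg, mul_div_cancel₀ _ he.ne']
  rw [e1] at hA ⊢
  refine (h_anti hA).trans ?_
  have h1 := VV.h_dg_dg (TR.vec (fun _ : Fin 1 => Pool.Agent.Helper60.CS.trc Z e he f))
    (show r / e ≤ (r + δ) / e from div_le_div_of_nonneg_right (by linarith) he.le)
  have e2 : (r + δ) / e - r / e = δ / e := by ring
  rw [e2, Nat.cast_one, one_mul] at h1
  exact h1

/-- **T4, FINE FORM**: the other coordinates are only needed to the same level -/
theorem t4_fine (U : Sp) (s : Sys U m) (Z : ∀ k, Setoid (U.F k).Ω) (c η : ℝ) (i0 : Fin m)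
    (q : ∀ k, (U.F k).Ω → Mon (m + 1) D → ℝ) (hq : Top s Z D c η (fun _ => Pi.single i0 1) q)
    (K : ℕ → ℝ) (hK : U.Sub K) (hKt : Sp.Typ (S := U) (fun k ω => |eval (ptf s k ω) (pol (q k ω))| ≤ K k))
    (hη : η < 1) (b : ℝ) (hb : 0 ≤ b) (hb1 : η + b ≤ 1) (e : ℝ) (he : 0 < e) :
    Sp.chgL Z e he (TR.dg (TR.cor s.P i0) (η + b)) ≤
      Sp.chgL Z e he (TR.dg (zt s q K hK) b ⊔ othg s i0 (η + b)) := by
  rcases hb.lt_or_eq with hb' | rfl
  · exact t4_core U s Z c η i0 q hq K hK hKt b (η + b) (by linarith) hb1 le_rfl e he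
  rw [add_zero]
  apply h_le_zero_iff.mp
  set A := Sp.chgL Z e he (TR.dg (zt s q K hK) 0 ⊔ othg s i0 η) with hA
  set F := (Finset.univ : Finset (Fin m)).filter (fun j => j ≠ i0) with hF
  have key : ∀ δ : ℝ, 0 < δ → η + δ ≤ 1 → h (Sp.chgL Z e he (TR.dg (TR.cor s.P i0) η)) A ≤
      ((F.card : ℝ) + 1) * (δ / e) := by
    intro δ hδ hδ1
    have h1 := t4_core U s Z c η i0 q hq K hK hKt δ (η + δ) (by linarith) hδ1 le_rfl e he
    have h2 : h (Sp.chgL Z e he (TR.dg (TR.cor s.P i0) η)) A ≤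
        h (Sp.chgL Z e he (TR.dg (zt s q K hK) δ ⊔ othg s i0 (η + δ))) A :=
      h_mono ((Sp.chgL_mono _ _ _ (TR.dg_mono _ (by linarith))).trans h1)
    refine h2.trans ?_
    unfold othg
    rw [Sp.chgL_sup, Sp.chgL_sup]
    have h3 : h (Sp.chgL Z e he (TR.dg (zt s q K hK) δ)) A ≤ δ / e := by
      have h4 := h_chgL_dg Z e he (zt s q K hK) (r := 0) hδ.le A (by
        rw [hA, Sp.chgL_sup]
        exact le_sup_left)
      rwa [zero_add] at h4
    have h5 : h (Sp.chgL Z e he s.T) A ≤ 0 := by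
      apply h_le_zero_iff.mpr
      rw [hA]
      apply Sp.chgL_mono
      unfold othg
      exact le_sup_left.trans le_sup_right
    have h6 : h (Sp.chgL Z e he (F.sup fun j => TR.dg (TR.cor s.P j) (η + δ))) A ≤ (F.card : ℝ) * (δ / e) := by
      refine (h_chgL_sup Z e he F _ A).trans ?_
      refine (Finset.sum_le_card_nsmul F _ (δ / e) fun j hj => ?_).trans (le_of_eq (nsmul_eq_mul _ _))
      apply h_chgL_dg Z e he _ hδ.le
      rw [hA]
      apply Sp.chgL_mono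
      unfold othg
      exact (Finset.le_sup (f := fun j => TR.dg (TR.cor s.P j) η) hj).trans (le_sup_right.trans le_sup_right)
    refine (h_sup_le _ _ _).trans ?_
    have h7 := h_sup_le (Sp.chgL Z e he s.T) (Sp.chgL Z e he (F.sup fun j => TR.dg (TR.cor s.P j) (η + δ))) A
    linarith
  refine le_of_forall_pos_le_add fun ε hε => ?_
  rw [zero_add]
  set δ : ℝ := min (1 - η) (ε * e / ((F.card : ℝ) + 1)) with hδ
  have hc : (0 : ℝ) < (F.card : ℝ) + 1 := by positivity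
  have hδ0 : 0 < δ := lt_min (by linarith) (by positivity)
  refine (key δ hδ0 (by linarith [min_le_left (1 - η) (ε * e / ((F.card : ℝ) + 1))])).trans ?_
  have h1 : δ ≤ ε * e / ((F.card : ℝ) + 1) := min_le_right _ _
  rw [le_div_iff₀ hc] at h1
  rw [← mul_div_assoc, div_le_iff₀ he]
  linarith

end

end Pool.Agent.Helper35.T4
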