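import Pool.Agent.Helper15.T4.Stmts

set_option autoImplicit false

open Finset MeasureTheory Filter Topology

namespace Pool.Agent.Helper35.T4

open Pool.Agent.Helper15.T4

theorem gss_sw {A I : Type} [Fintype A] [Fintype I] (F : A → A → A → I → ℂ) :
    ∑ a, ∑ b, ∑ c, ∑ i, F a b c i = ∑ i, ∑ a, ∑ b, ∑ c, F a b c i := by
  rw [Finset.sum_comm]
  rw [Finset.sum_comm (s := univ) (t := univ)
    (f := fun (i : I) (a : A) => ∑ b, ∑ c, F a b c i)]
  rw [Finset.sum_comm]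
  refine Finset.sum_congr rfl fun a _ => ?_
  rw [Finset.sum_comm (s := univ) (t := univ) (f := fun (i : I) (b : A) => ∑ c, F a b c i)]
  refine Finset.sum_congr rfl fun b _ => ?_
  exact Finset.sum_comm

section

variable {L ι : Type} [Fintype L] [Fintype ι] [DecidableEq ι] (m : Mdl L ι)

omit [Fintype L] in
theorem gss_l (b : L) (i : ι) : m.l b (Pi.single i 1) = m.S b i := by
  unfold Mdl.l
  rw [Finset.sum_eq_single i]
  · simp
  · intro j _ hj
    simp [Pi.single_eq_of_ne hj]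
  · intro h
    exact absurd (Finset.mem_univ i) h

theorem gss_T2 (u y z : ι → ℝ) :
    m.T u y z = ∑ i, (y i : ℂ) * m.T u (Pi.single i 1) z := by
  have e1 : ∀ a b c : L, (m.w a b c : ℂ) * m.l a u * m.l b y * m.l c z =
      ∑ i, (y i : ℂ) * ((m.w a b c : ℂ) * m.l a u * m.S b i * m.l c z) := by
    intro a b c
    have : m.l b y = ∑ i, m.S b i * (y i : ℂ) := rfl
    rw [this, Finset.mul_sum, Finset.sum_mul]
    refine Finset.sum_congr rfl fun i _ => ?_
    ring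
  unfold Mdl.T
  simp_rw [e1]
  rw [gss_sw]
  refine Finset.sum_congr rfl fun i _ => ?_
  simp_rw [gss_l, Finset.mul_sum]

theorem gss_T3 (u y z : ι → ℝ) :
    m.T u y z = ∑ i, (z i : ℂ) * m.T u y (Pi.single i 1) := by
  have e1 : ∀ a b c : L, (m.w a b c : ℂ) * m.l a u * m.l b y * m.l c z =
      ∑ i, (z i : ℂ) * ((m.w a b c : ℂ) * m.l a u * m.l b y * m.S c i) := by
    intro a b c
    have : m.l c z = ∑ i, m.S c i * (z i : ℂ) := rfl
    rw [this, Finset.mul_sum]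
    refine Finset.sum_congr rfl fun i _ => ?_
    ring
  unfold Mdl.T
  simp_rw [e1]
  rw [gss_sw]
  refine Finset.sum_congr rfl fun i _ => ?_
  simp_rw [gss_l, Finset.mul_sum]

theorem gss_quad (u : ι → ℝ) (q : ℝ) (x : ι → ℝ) :
    ∑ i, ∑ j, (x i : ℂ) * HM m.T u q i j * (x j : ℂ) = QT m.T u q x := by
  have e1 : m.T u x x = ∑ i, ∑ j, (x i : ℂ) * m.T u (Pi.single i 1) (Pi.single j 1) * (x j : ℂ) := by
    rw [gss_T2]
    refine Finset.sum_congr rfl fun i _ => ?_
    rw [gss_T3, Finset.mul_sum]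
    refine Finset.sum_congr rfl fun j _ => ?_
    ring
  have e2 : ((nsq x : ℝ) : ℂ) = ∑ i, ∑ j, (x i : ℂ) * (if i = j then 1 else 0) * (x j : ℂ) := by
    unfold nsq
    push_cast
    refine Finset.sum_congr rfl fun i _ => ?_
    rw [Finset.sum_eq_single i]
    · rw [if_pos rfl]
      ring
    · intro j _ hj
      rw [if_neg (fun h => hj h.symm)]
      ring
    · intro h
      exact absurd (Finset.mem_univ i) h
  have e3 : ((∑ i, u i * x i : ℝ) : ℂ) ^ 2 = ∑ i, ∑ j, (x i : ℂ) * ((u i * u j : ℝ) : ℂ) * (x j : ℂ) := by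
    rw [sq]
    push_cast
    rw [Finset.sum_mul]
    refine Finset.sum_congr rfl fun i _ => ?_
    rw [Finset.mul_sum]
    refine Finset.sum_congr rfl fun j _ => ?_
    ring
  unfold QT
  rw [e1, e2, e3, Finset.mul_sum, Finset.mul_sum, Finset.mul_sum, Finset.sum_div,
    ← Finset.sum_sub_distrib, ← Finset.sum_add_distrib]
  refine Finset.sum_congr rfl fun i _ => ?_
  rw [Finset.mul_sum, Finset.mul_sum, Finset.mul_sum, Finset.sum_div,
    ← Finset.sum_sub_distrib, ← Finset.sum_add_distrib]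
  refine Finset.sum_congr rfl fun j _ => ?_
  unfold HM
  rw [Matrix.of_apply]
  by_cases h : i = j
  · rw [if_pos h, if_pos h]
    ring
  · rw [if_neg h, if_neg h]
    ring

theorem gss_symm (hm : m.Symm) (u : ι → ℝ) (q : ℝ) : (HM m.T u q).IsSymm := by
  refine Matrix.IsSymm.ext ?_
  intro i j
  have e1 : m.T u (Pi.single j 1) (Pi.single i 1) = m.T u (Pi.single i 1) (Pi.single j 1) := by
    unfold Mdl.T
    refine Finset.sum_congr rfl fun a _ => ?_
    rw [Finset.sum_comm]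
    refine Finset.sum_congr rfl fun b _ => ?_
    refine Finset.sum_congr rfl fun c _ => ?_
    rw [(hm a b c).2]
    ring
  unfold HM
  rw [Matrix.of_apply, Matrix.of_apply, e1, mul_comm (u j) (u i)]
  simp only [eq_comm]

theorem gss_gen (h1 : ST_GAUSS) (hm : m.Symm) (u : ι → ℝ) (q : ℝ)
    (hp : ∃ c : ℝ, 0 < c ∧ ∀ h : ι → ℝ, c * nsq h ≤ (QT m.T u q h).re) :
    ‖GG (QT m.T u q)‖ ^ 2 = (2 * Real.pi) ^ (Fintype.card ι) / ‖(HM m.T u q).det‖ := by
  have h := h1 ι (HM m.T u q) (gss_symm m hm u q) (by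
    simp_rw [gss_quad]
    exact hp)
  simp_rw [gss_quad] at h
  exact h

end

theorem gss_m0 : m0.Symm := fun _ _ _ => ⟨rfl, rfl⟩

theorem gss_m1 : m1.Symm := by
  intro a b c
  change w1 a b c = w1 b a c ∧ w1 a b c = w1 a c b
  unfold w1
  constructor
  · congr 1
    apply propext
    constructor
    · rintro ⟨p1, p2, p3, p4, p5⟩
      exact ⟨p1.symm, p3, p2, p4.symm, p4.symm.trans p5⟩
    · rintro ⟨p1, p2, p3, p4, p5⟩
      exact ⟨p1.symm, p3, p2, p4.symm, p4.symm.trans p5⟩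
  · congr 1
    apply propext
    constructor
    · rintro ⟨p1, p2, p3, p4, p5⟩
      exact ⟨p2, p1, p3.symm, p5, p4⟩
    · rintro ⟨p1, p2, p3, p4, p5⟩
      exact ⟨p2, p1, p3.symm, p5, p4⟩

theorem gss_m2 : m2.Symm := by
  intro a b c
  have e1 := gss_m1 a.1 b.1 c.1
  have e2 := gss_m1 a.2 b.2 c.2
  change m1.w a.1 b.1 c.1 * m1.w a.2 b.2 c.2 = m1.w b.1 a.1 c.1 * m1.w b.2 a.2 c.2 ∧
    m1.w a.1 b.1 c.1 * m1.w a.2 b.2 c.2 = m1.w a.1 c.1 b.1 * m1.w a.2 c.2 b.2
  exact ⟨by rw [e1.1, e2.1], by rw [e1.2, e2.2]⟩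

theorem gss_m0T (x y z : Unit → ℝ) : m0.T x y z = ((x () * y () * z () : ℝ) : ℂ) := by
  unfold Mdl.T Mdl.l m0
  simp

theorem GSS (h1 : ST_GAUSS) (h2 : ST_DET1) (h3 : ST_DET2) (h4 : ST_POS1) (h5 : ST_POS2) :
    ST_GSS := by
  refine ⟨?_, ?_, ?_⟩
  · have hp : ∃ c : ℝ, 0 < c ∧ ∀ h : Unit → ℝ, c * nsq h ≤ (QT m0.T (fun _ => 1) 1 h).re := by
      refine ⟨6, by norm_num, fun h => ?_⟩
      have : QT m0.T (fun _ => 1) 1 h = ((6 * nsq h : ℝ) : ℂ) := by
        unfold QT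
        rw [gss_m0T]
        unfold nsq
        simp
        ring
      rw [this, Complex.ofReal_re]
    have h := gss_gen m0 h1 gss_m0 (fun _ => 1) 1 hp
    rw [h]
    have hd : (HM m0.T (fun _ => 1) 1).det = 6 := by
      rw [Matrix.det_unique]
      unfold HM
      rw [Matrix.of_apply, gss_m0T]
      simp
      norm_num
    rw [hd]
    simp
  · have h := gss_gen m1 h1 gss_m1 u1 q1 h4
    rw [h, h2]
    congr 2
  · have h := gss_gen m2 h1 gss_m2 u2 (8 / 3) h5
    rw [h, h3]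
    congr 2

end Pool.Agent.Helper35.T4
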