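import Mathlib

/-!
# Few cells of a level strip

A polynomial of one variable: the points at which the value is in a strip and the derivative is large lie in few short
intervals.
-/

set_option autoImplicit false

namespace Pool.Agent.Helper35.T4

open Polynomial Set

/-- there are no `2 D + 2` separated points in a strip with large derivative -/
theorem few_sep (f : ℝ[X]) (D : ℕ) (hf : f.natDegree ≤ D) (c d g l : ℝ) (hg : 0 < g) (hl : 2 * d ≤ g * l)
    (u : Fin (2 * D + 2) → ℝ) (hu : ∀ i : Fin (2 * D + 1), u i.castSucc + l < u i.succ) (hl0 : 0 ≤ l)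
    (h1 : ∀ i, |f.eval (u i) - c| ≤ d) (h2 : ∀ i, g ≤ |(derivative f).eval (u i)|) : False := by
  set h : ℝ[X] := (derivative f) ^ 2 - C (g ^ 2) with hh
  have hev : ∀ x, h.eval x = ((derivative f).eval x) ^ 2 - g ^ 2 := fun x => by
    rw [hh, eval_sub, eval_pow, eval_C]
  have step : ∀ i : Fin (2 * D + 1), ∃ r ξ : ℝ, u i.castSucc ≤ r ∧ r ≤ ξ ∧ ξ < u i.succ ∧ h.eval r = 0 ∧
      h.eval ξ < 0 := by
    intro i
    have hlt : u i.castSucc < u i.succ := by linarith [hu i]
    obtain ⟨ξ, hξ, hs⟩ := exists_deriv_eq_slope (fun x => f.eval x) hlt f.continuous.continuousOn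
      f.differentiable.differentiableOn
    have e1 : deriv (fun x => f.eval x) ξ = (derivative f).eval ξ := Polynomial.deriv f
    rw [e1] at hs
    have h3 : |f.eval (u i.succ) - f.eval (u i.castSucc)| ≤ 2 * d := by
      have e2 : f.eval (u i.succ) - f.eval (u i.castSucc) =
          (f.eval (u i.succ) - c) - (f.eval (u i.castSucc) - c) := by ring
      rw [e2]
      refine (abs_sub _ _).trans ?_
      linarith [h1 i.succ, h1 i.castSucc]
    have h4 : |(derivative f).eval ξ| < g := by
      rw [hs, abs_div, abs_of_pos (sub_pos.mpr hlt), div_lt_iff₀ (sub_pos.mpr hlt)]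
      have h5 : g * l < g * (u i.succ - u i.castSucc) := mul_lt_mul_of_pos_left (by linarith [hu i]) hg
      linarith
    have h6 : h.eval ξ < 0 := by
      rw [hev, ← sq_abs]
      have := pow_lt_pow_left₀ h4 (abs_nonneg _) two_ne_zero
      linarith
    have h7 : 0 ≤ h.eval (u i.castSucc) := by
      rw [hev, ← sq_abs]
      have := pow_le_pow_left₀ hg.le (h2 i.castSucc) 2
      linarith
    obtain ⟨r, hr, hr0⟩ := intermediate_value_Icc' hξ.1.le (f := fun x => h.eval x) h.continuous.continuousOn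
      (show (0 : ℝ) ∈ Icc (h.eval ξ) (h.eval (u i.castSucc)) from ⟨h6.le, h7⟩)
    exact ⟨r, ξ, hr.1, hr.2, hξ.2, hr0, h6⟩
  choose r ξ a1 a2 a3 a4 a5 using step
  have hne : h ≠ 0 := by
    intro h0
    have := a5 0
    rw [h0, eval_zero] at this
    exact lt_irrefl _ this
  have hmono : StrictMono u := Fin.strictMono_iff_lt_succ.mpr fun i => by linarith [hu i]
  have hinj : Function.Injective r := by
    apply StrictMono.injective (f := r)
    intro i j hij
    have h8 : u i.succ ≤ u j.castSucc := by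
      apply hmono.monotone
      rw [Fin.le_def, Fin.val_succ, Fin.val_castSucc]
      exact hij
    linarith [a1 j, a2 i, a3 i]
  have hcard : (Finset.univ : Finset (Fin (2 * D + 1))).card ≤ h.roots.toFinset.card := by
    apply Finset.card_le_card_of_injOn r
    · intro i _
      rw [Finset.mem_coe, Multiset.mem_toFinset, mem_roots hne]
      exact a4 i
    · exact hinj.injOn
  rw [Finset.card_univ, Fintype.card_fin] at hcard
  have h9 : h.roots.toFinset.card ≤ h.natDegree := (Multiset.toFinset_card_le _).trans (card_roots' h)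
  have h10 : h.natDegree ≤ 2 * D := by
    rw [hh]
    refine (natDegree_sub_le _ _).trans (max_le ?_ ?_)
    · refine (natDegree_pow_le).trans (Nat.mul_le_mul_left 2 ?_)
      exact (natDegree_derivative_le f).trans ((Nat.sub_le _ _).trans hf)
    · rw [natDegree_C]
      exact Nat.zero_le _
  omega

/-- **the number of cells of a strip**: the cells of side `δ` which contain a point of the strip at which the derivative
is large -/
theorem few_cells (f : ℝ[X]) (D : ℕ) (hf : f.natDegree ≤ D) (c d g δ : ℝ) (M : ℕ) (hδ : 0 < δ) (hg : 0 < g)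
    (hM : 2 * d ≤ g * (M * δ)) (I : Finset ℤ)
    (hI : ∀ n ∈ I, ∃ u : ℝ, ⌊u / δ⌋ = n ∧ |f.eval u - c| ≤ d ∧ g ≤ |(derivative f).eval u|) :
    I.card ≤ (2 * D + 1) * (M + 2) := by
  by_contra hcon
  have hcon' : (M + 2) * (2 * D + 1) < I.card := by
    rw [mul_comm]; exact not_le.mp hcon
  -- a residue class with many elements
  have hM0 : (0 : ℤ) < (M + 2 : ℕ) := by positivity
  obtain ⟨y, -, hy⟩ := Finset.exists_lt_card_fiber_of_mul_lt_card_of_maps_to (s := I)
    (t := Finset.Ico (0 : ℤ) (M + 2 : ℕ)) (f := fun n => n % ((M + 2 : ℕ) : ℤ)) (n := 2 * D + 1) (by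
      intro n _
      rw [Finset.mem_Ico]
      exact ⟨Int.emod_nonneg _ hM0.ne', Int.emod_lt_of_pos _ hM0⟩) (by
      rw [Int.card_Ico, sub_zero, Int.toNat_natCast]
      exact hcon')
  set J := I.filter (fun n => n % ((M + 2 : ℕ) : ℤ) = y) with hJ
  have hJc : 2 * D + 2 ≤ J.card := hy
  obtain ⟨J', hJ', hJc'⟩ := Finset.exists_subset_card_eq hJc
  set e := J'.orderEmbOfFin hJc' with he
  have hmem : ∀ i, e i ∈ J := fun i => hJ' (Finset.orderEmbOfFin_mem J' hJc' i)
  have hmem2 : ∀ i, e i ∈ I := fun i => (Finset.mem_filter.mp (hmem i)).1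
  choose u hu1 hu2 hu3 using fun i => hI (e i) (hmem2 i)
  refine few_sep f D hf c d g (M * δ) hg hM u (fun i => ?_) (by positivity) hu2 hu3
  have h1 : e i.castSucc < e i.succ := e.strictMono (Fin.castSucc_lt_succ)
  have h2 : (e i.castSucc) % ((M + 2 : ℕ) : ℤ) = (e i.succ) % ((M + 2 : ℕ) : ℤ) := by
    rw [(Finset.mem_filter.mp (hmem i.castSucc)).2, (Finset.mem_filter.mp (hmem i.succ)).2]
  have h3 : ((M + 2 : ℕ) : ℤ) ∣ e i.succ - e i.castSucc := Int.ModEq.dvd h2
  have h4 : ((M + 2 : ℕ) : ℤ) ≤ e i.succ - e i.castSucc := Int.le_of_dvd (by linarith) h3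
  have h5 : ((M : ℝ) + 2) ≤ (e i.succ : ℝ) - (e i.castSucc : ℝ) := by
    have : (((M + 2 : ℕ) : ℤ) : ℝ) ≤ ((e i.succ - e i.castSucc : ℤ) : ℝ) := by exact_mod_cast h4
    push_cast at this
    linarith
  have h6 := Int.floor_le (u i.succ / δ)
  have h7 := Int.lt_floor_add_one (u i.castSucc / δ)
  rw [hu1] at h6 h7
  rw [le_div_iff₀ hδ] at h6
  rw [div_lt_iff₀ hδ] at h7
  nlinarith

end Pool.Agent.Helper35.T4
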