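import Pool.Agent.Helper35.T4.Root
import Pool.Agent.Helper59.LF.Speed
import Pool.Agent.Helper3.PR.Grad

/-!
# Cells of one coordinate in a level strip of a polynomial, finite form
-/

set_option autoImplicit false

namespace Pool.Agent.Helper35.T4

open MvPolynomial Pool.Agent.Helper3.LF Pool.Agent.Helper3.PR

noncomputable section

variable {m D : ℕ}

/-- a partial derivative, Cauchy -/
theorem pder_le (f : MvPolynomial (Fin (m + 1)) ℝ) (hf : f.totalDegree ≤ D) (y : Fin (m + 1) → ℝ) (i : Fin (m + 1))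
    (R M : ℝ) (hR : 0 < R) (hM : ∀ z : Fin (m + 1) → ℝ, (∀ j, |z j - y j| ≤ R) → |eval z f| ≤ M) :
    |eval y (pderiv i f)| ≤ Cu D * M / R := by
  have h := der_dir (D := D) f hf y (Pi.single i 1) R M hR (fun u hu => by
    apply hM
    intro j
    have e1 : y j + u * (Pi.single i 1 : Fin (m + 1) → ℝ) j - y j = u * (Pi.single i 1 : Fin (m + 1) → ℝ) j := by ring
    rw [e1, abs_mul]
    by_cases hj : j = i
    · subst hj
      rw [Pi.single_eq_same, abs_one, mul_one]
      exact hu
    · rw [Pi.single_eq_of_ne hj, abs_zero, mul_zero]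
      exact hR.le)
  rw [Finset.sum_eq_single i] at h
  · rw [Pi.single_eq_same, one_mul] at h
    exact h
  · intro j _ hj
    rw [Pi.single_eq_of_ne hj, zero_mul]
  · intro hi
    exact absurd (Finset.mem_univ i) hi

/-- a polynomial which is bounded near `p` and its derivatives vary little -/
theorem near_both (q : MvPolynomial (Fin (m + 1)) ℝ) (hq : q.totalDegree ≤ D) (p p' : Fin (m + 1) → ℝ)
    (r e K : ℝ) (hr : 0 < r) (hK : 0 ≤ K) (he : 0 ≤ e) (her : 4 * e ≤ r) (hp : ∀ j, |p' j - p j| ≤ e)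
    (hb : ∀ y : Fin (m + 1) → ℝ, (∀ j, |y j - p j| ≤ r) → |eval y q| ≤ K) (i : Fin (m + 1)) :
    |eval p' q - eval p q| ≤ ((m + 1 : ℕ) : ℝ) * (e * (2 * Cu D * K / r)) ∧
    |eval p' (pderiv i q) - eval p (pderiv i q)| ≤ ((m + 1 : ℕ) : ℝ) * (e * (8 * Cu D ^ 2 * K / r ^ 2)) := by
  have hC := Cu_one D
  have h1 : ∀ (i : Fin (m + 1)) (y : Fin (m + 1) → ℝ), (∀ j, |y j - p j| ≤ r / 2) →
      |eval y (pderiv i q)| ≤ 2 * Cu D * K / r := by
    intro i y hy
    refine (pder_le q hq y i (r / 2) K (by linarith) (fun z hz => hb z fun j => ?_)).trans (le_of_eq (by field_simp))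
    have e1 : z j - p j = (z j - y j) + (y j - p j) := by ring
    rw [e1]
    refine (abs_add_le _ _).trans ?_
    linarith [hz j, hy j]
  have h2 : ∀ (i' : Fin (m + 1)) (y : Fin (m + 1) → ℝ), (∀ j, |y j - p j| ≤ r / 4) →
      |eval y (pderiv i' (pderiv i q))| ≤ 8 * Cu D ^ 2 * K / r ^ 2 := by
    intro i' y hy
    refine (pder_le (D := D) (pderiv i q) (tdeg_pderiv i q D (by omega)) y i' (r / 4) (2 * Cu D * K / r) (by linarith)
      (fun z hz => h1 i z fun j => ?_)).trans (le_of_eq (by field_simp; ring))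
    have e1 : z j - p j = (z j - y j) + (y j - p j) := by ring
    rw [e1]
    refine (abs_add_le _ _).trans ?_
    linarith [hz j, hy j]
  constructor
  · refine Pool.Agent.Helper59.LF.mvb q p p' e _ (by positivity) hp fun i y hy => ?_
    exact mul_le_mul_of_nonneg_left (h1 i y fun j => (hy j).trans (by linarith)) he
  · refine Pool.Agent.Helper59.LF.mvb (pderiv i q) p p' e _ (by positivity) hp fun i' y hy => ?_
    exact mul_le_mul_of_nonneg_left (h2 i' y fun j => (hy j).trans (by linarith)) he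

/-- **cells of the coordinate `i0` of points whose other coordinates are almost fixed and at which the value of `q` is
in a strip and the derivative in the direction `i0` is large** -/
theorem strip_card (q : MvPolynomial (Fin (m + 1)) ℝ) (hq : q.totalDegree ≤ D) (i0 : Fin (m + 1))
    (p0 : Fin (m + 1) → ℝ) (z r e d1 K δ : ℝ) (M : ℕ) (hr : 0 < r) (hK : 1 ≤ K) (he : 0 ≤ e) (hδ : 0 < δ)
    (hs : ((m + 1 : ℕ) : ℝ) * (16 * Cu D ^ 2 * K ^ 2 * e) ≤ r)
    (hM : 2 * (((m + 1 : ℕ) : ℝ) * (e * (2 * Cu D * K / r)) + d1) ≤ 1 / (2 * K * r) * (M * δ))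
    (I : Finset ℤ) (hI : ∀ n ∈ I, ∃ p : Fin (m + 1) → ℝ, ⌊p i0 / δ⌋ = n ∧ (∀ j, j ≠ i0 → |p j - p0 j| ≤ e) ∧
      (∀ y : Fin (m + 1) → ℝ, (∀ j, |y j - p j| ≤ r) → |eval y q| ≤ K) ∧ |eval p q - z| ≤ d1 ∧
      1 ≤ K * (r * |eval p (pderiv i0 q)|)) : I.card ≤ (2 * D + 1) * (M + 2) := by
  have hC := Cu_one D
  have hm : (1 : ℝ) ≤ ((m + 1 : ℕ) : ℝ) := by
    push_cast
    have : (0 : ℝ) ≤ m := Nat.cast_nonneg m
    linarith
  have hC2 : 1 ≤ Cu D ^ 2 := one_le_pow₀ hC
  have hK2 : 1 ≤ K ^ 2 := one_le_pow₀ hK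
  have her : 4 * e ≤ r := by
    refine le_trans ?_ hs
    have h1 : e ≤ Cu D ^ 2 * K ^ 2 * e := le_mul_of_one_le_left he (by nlinarith)
    have h2 : 0 ≤ 16 * Cu D ^ 2 * K ^ 2 * e := by positivity
    nlinarith [mul_le_mul_of_nonneg_right hm h2]
  refine few_cells (lne (Function.update p0 i0 0) i0 q) D ((natDegree_lin _ _ _).trans hq) z
    (((m + 1 : ℕ) : ℝ) * (e * (2 * Cu D * K / r)) + d1) (1 / (2 * K * r)) δ M hδ (by positivity) hM I ?_
  intro n hn
  obtain ⟨p, a1, a2, a3, a4, a5⟩ := hI n hn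
  refine ⟨p i0, a1, ?_, ?_⟩
  · rw [eval_lne]
    have e1 : Function.update (Function.update p0 i0 0) i0 (Function.update p0 i0 0 i0 + p i0) =
        Function.update p0 i0 (p i0) := by
      rw [Function.update_self, zero_add, Function.update_idem]
    rw [e1]
    have h1 := (near_both (D := D) q hq p (Function.update p0 i0 (p i0)) r e K hr (by linarith) he her (fun j => by
      by_cases hj : j = i0
      · subst hj
        rw [Function.update_self, sub_self, abs_zero]
        exact he
      · rw [Function.update_of_ne hj, abs_sub_comm]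
        exact a2 j hj) a3 i0).1
    have e2 : eval (Function.update p0 i0 (p i0)) q - z =
        (eval (Function.update p0 i0 (p i0)) q - eval p q) + (eval p q - z) := by ring
    rw [e2]
    exact (abs_add_le _ _).trans (add_le_add h1 a4)
  · rw [deriv_lne, eval_lne]
    have e1 : Function.update (Function.update p0 i0 0) i0 (Function.update p0 i0 0 i0 + p i0) =
        Function.update p0 i0 (p i0) := by
      rw [Function.update_self, zero_add, Function.update_idem]
    rw [e1]
    have h1 := (near_both (D := D) q hq p (Function.update p0 i0 (p i0)) r e K hr (by linarith) he her (fun j => by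
      by_cases hj : j = i0
      · subst hj
        rw [Function.update_self, sub_self, abs_zero]
        exact he
      · rw [Function.update_of_ne hj, abs_sub_comm]
        exact a2 j hj) a3 i0).2
    have h2 : 1 / (K * r) ≤ |eval p (pderiv i0 q)| := by
      rw [div_le_iff₀ (by positivity)]
      linarith
    have h3 : ((m + 1 : ℕ) : ℝ) * (e * (8 * Cu D ^ 2 * K / r ^ 2)) ≤ 1 / (2 * K * r) := by
      rw [le_div_iff₀ (by positivity)]
      have e3 : ((m + 1 : ℕ) : ℝ) * (e * (8 * Cu D ^ 2 * K / r ^ 2)) * (2 * K * r) =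
          ((m + 1 : ℕ) : ℝ) * (16 * Cu D ^ 2 * K ^ 2 * e) / r := by
        field_simp
        ring
      rw [e3, div_le_one hr]
      exact hs
    have h4 : |eval p (pderiv i0 q)| ≤ |eval (Function.update p0 i0 (p i0)) (pderiv i0 q)| +
        |eval (Function.update p0 i0 (p i0)) (pderiv i0 q) - eval p (pderiv i0 q)| := by
      have e4 : eval p (pderiv i0 q) = eval (Function.update p0 i0 (p i0)) (pderiv i0 q) -
          (eval (Function.update p0 i0 (p i0)) (pderiv i0 q) - eval p (pderiv i0 q)) := by ring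
      conv_lhs => rw [e4]
      exact abs_sub _ _
    have h5 : 1 / (K * r) = 1 / (2 * K * r) + 1 / (2 * K * r) := by
      field_simp
      ring
    linarith

end

end Pool.Agent.Helper35.T4
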